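import Pool.Agent.helper85.T7.SpecS

set_option autoImplicit false

namespace Pool.Agent.T7

open Finset NumberField Pool.Agent.helper3.FT Pool.Agent.helper47.RA Pool.Agent.T5 Pool.Agent.T6

/-- exceptional ideals are among all ideals -/
theorem SUE7_cE_le (D : ℤ) (Y B : ℝ) : (cE D Y B : ℝ) ≤ (cA D Y : ℝ) := by
  by_cases hne : Nonempty (Fld D)
  · have e1 : cA D Y = (IA hne.some.K Y).ncard := by unfold cA; rw [dif_pos hne]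
    have e2 : cE D Y B = (EX hne.some.Q Y B).ncard := by unfold cE; rw [dif_pos hne]
    rw [e1, e2]
    have hsub : EX hne.some.Q Y B ⊆ IA hne.some.K Y := fun a ha => ha.1
    exact_mod_cast Set.ncard_le_ncard hsub (SFA.1 hne.some.K Y)
  · have e1 : cA D Y = 0 := by unfold cA; rw [dif_neg hne]
    have e2 : cE D Y B = 0 := by unfold cE; rw [dif_neg hne]
    rw [e1, e2]

/-- the inequality for one discriminant -/
theorem SUE7_D (w : ℕ) (κ N Y Y₂ L B H : ℝ)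
    (h : ∀ (K : Type) [Field K] [NumberField K] (Q : QF K), Module.finrank ℚ K = 2 →
      N / 2 < -(Q.D : ℝ) → -(Q.D : ℝ) ≤ N →
      L * (((IA K Y).ncard : ℝ) - ((EX Q Y B).ncard : ℝ)) ≤
        (∑ᶠ x ∈ GG7 Q κ N Y Y₂ 1, wt Q w x.1 x.2) + MW w * ∑ g ∈ g7 w H, ((GG7 Q κ N Y Y₂ g).ncard : ℝ))
    (D : ℤ) (hD : D ∈ DN N) :
    L * ((cA D Y : ℝ) - (cE D Y B : ℝ)) ≤
      SF (fun _ E => ∑ᶠ x ∈ GG7 E.Q κ N Y Y₂ 1, wt E.Q w x.1 x.2) D +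
        MW w * ∑ g ∈ g7 w H, SF (fun _ E => ((GG7 E.Q κ N Y Y₂ g).ncard : ℝ)) D := by
  obtain ⟨h1, h2, h3, h4⟩ := SUE_mem hD
  by_cases hne : Nonempty (Fld D)
  · have e1 : cA D Y = (IA hne.some.K Y).ncard := by unfold cA; rw [dif_pos hne]
    have e2 : cE D Y B = (EX hne.some.Q Y B).ncard := by unfold cE; rw [dif_pos hne]
    have e3 : SF (fun _ E => ∑ᶠ x ∈ GG7 E.Q κ N Y Y₂ 1, wt E.Q w x.1 x.2) D =
        ∑ᶠ x ∈ GG7 hne.some.Q κ N Y Y₂ 1, wt hne.some.Q w x.1 x.2 := by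
      unfold SF; rw [dif_pos hne]
    have e4 : ∀ g : ℕ, SF (fun _ E => ((GG7 E.Q κ N Y Y₂ g).ncard : ℝ)) D =
        ((GG7 hne.some.Q κ N Y Y₂ g).ncard : ℝ) := by
      intro g; unfold SF; rw [dif_pos hne]
    rw [e1, e2, e3]
    simp only [e4]
    have hq : hne.some.Q.D = D := hne.some.hD
    exact h hne.some.K hne.some.Q hne.some.fin (by rw [hq]; exact h2) (by rw [hq]; exact h3)
  · have e1 : cA D Y = 0 := by unfold cA; rw [dif_neg hne]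
    have e2 : cE D Y B = 0 := by unfold cE; rw [dif_neg hne]
    have e3 : SF (fun _ E => ∑ᶠ x ∈ GG7 E.Q κ N Y Y₂ 1, wt E.Q w x.1 x.2) D = 0 := by
      unfold SF; rw [dif_neg hne]
    have e4 : ∀ g : ℕ, SF (fun _ E => ((GG7 E.Q κ N Y Y₂ g).ncard : ℝ)) D = 0 := by
      intro g; unfold SF; rw [dif_neg hne]
    rw [e1, e2, e3]
    simp only [e4]
    simp

theorem SUE7_final (pi A S T W B X M C₁ C₂ κ ε m s wi sw : ℝ) (hA : 0 ≤ A) (hB : 0 < B) (hX : 0 ≤ X)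
    (hM : 1 ≤ M) (hC₁ : 1 ≤ C₁) (hC₂ : 1 ≤ C₂) (hε : 0 < ε) (hwi : 0 ≤ wi) (hws : wi ≤ sw)
    (hm : m = M * sw)
    (h1 : (pi - (C₁ * κ + M * (C₁ * wi) + ε / 4)) * B * A ≤ S + M * T)
    (h2 : S ≤ W) (h3 : T ≤ C₂ * sw * (B * X))
    (h4 : |W - B * X * s| ≤ ε / 4 * (B * X)) :
    (pi - (C₁ * κ + (C₁ + C₂) * m + ε)) * A ≤ (s + (C₁ + C₂) * m + ε) * X := by
  have hW : W ≤ B * X * s + ε / 4 * (B * X) := by
    have := (abs_le.1 h4).2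
    linarith
  have hM0 : 0 < M := by linarith
  have hMT : M * T ≤ (C₂ * m) * (B * X) := by
    calc M * T ≤ M * (C₂ * sw * (B * X)) := mul_le_mul_of_nonneg_left h3 hM0.le
      _ = (C₂ * m) * (B * X) := by rw [hm]; ring
  have h6 : B * ((pi - (C₁ * κ + M * (C₁ * wi) + ε / 4)) * A) ≤
      B * ((s + ε / 4 + C₂ * m) * X) := by
    calc B * ((pi - (C₁ * κ + M * (C₁ * wi) + ε / 4)) * A)
        = (pi - (C₁ * κ + M * (C₁ * wi) + ε / 4)) * B * A := by ring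
      _ ≤ S + M * T := h1
      _ ≤ (B * X * s + ε / 4 * (B * X)) + (C₂ * m) * (B * X) := by linarith
      _ = _ := by ring
  have h7 : (pi - (C₁ * κ + M * (C₁ * wi) + ε / 4)) * A ≤
      (s + ε / 4 + C₂ * m) * X := le_of_mul_le_mul_left h6 hB
  have hm0 : 0 ≤ m := by rw [hm]; exact mul_nonneg hM0.le (hwi.trans hws)
  have h8 : M * (C₁ * wi) ≤ C₁ * m := by
    rw [hm]
    have : M * wi ≤ M * sw := mul_le_mul_of_nonneg_left hws hM0.le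
    nlinarith
  have h10 : (C₁ * κ + M * (C₁ * wi) + ε / 4) * A ≤ (C₁ * κ + (C₁ + C₂) * m + ε) * A := by
    apply mul_le_mul_of_nonneg_right _ hA
    nlinarith [mul_nonneg (by linarith : (0:ℝ) ≤ C₂) hm0]
  have h12 : (C₂ * m) * X ≤ ((C₁ + C₂) * m) * X := by
    apply mul_le_mul_of_nonneg_right _ hX
    nlinarith
  have h13 : 0 ≤ ε * X := mul_nonneg hε.le hX
  nlinarith

/-- the size conditions -/
theorem SUE7_size (δ δ₁ η₁ η₂ ρ₀ θ A B₀ N Y : ℝ) (hδ : 0 < δ) (hδ₁ : 4 * δ ≤ δ₁) (hη₁ : 4 * δ ≤ η₁) (hη₂ : 4 * δ ≤ η₂)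
    (hθ : 0 < θ) (hθρ : θ ≤ ρ₀) (hθ1 : θ ≤ 1) (hA : 1 ≤ A) (hB₀ : 1 ≤ B₀) (hN : 10 ≤ N)
    (hs₁ : N ^ (-η₁) ≤ θ) (hs₂ : N ^ (-η₂) ≤ θ) (hY1 : N ^ (1 / 2 - δ) ≤ Y) (hY2 : Y ≤ θ / B₀ * √N) :
    0 < Y ∧ 0 < θ * N / Y ∧ Y * (θ * N / Y) = θ * N ∧ Y ≤ √N ∧ B₀ * √N ≤ θ * N / Y ∧
      θ * N / Y ≤ N ^ (1 / 2 + δ₁) ∧ Rg η₁ N Y (θ * N / Y) ∧ Rg η₂ N Y (θ * N / Y) ∧
      Y * (θ * N / Y) ≤ ρ₀ * N ∧ 0 < A / θ * Y ∧ A * N ≤ A / θ * Y * (θ * N / Y) := by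
  have hN0 : 0 < N := by linarith
  have hN1 : 1 ≤ N := by linarith
  have hY0 : 0 < Y := lt_of_lt_of_le (Real.rpow_pos_of_pos hN0 _) hY1
  have hsq : √N * √N = N := Real.mul_self_sqrt hN0.le
  have hs0 : 0 < √N := Real.sqrt_pos.2 hN0
  have hB0 : 0 < B₀ := by linarith
  have hYY : Y * (θ * N / Y) = θ * N := by field_simp
  have hY3 : Y ≤ √N := by
    refine hY2.trans ?_
    have : θ / B₀ ≤ 1 := by
      rw [div_le_one hB0]; linarith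
    calc θ / B₀ * √N ≤ 1 * √N := mul_le_mul_of_nonneg_right this hs0.le
      _ = √N := one_mul _
  have hY4 : B₀ * √N ≤ θ * N / Y := by
    rw [le_div_iff₀ hY0]
    calc B₀ * √N * Y ≤ B₀ * √N * (θ / B₀ * √N) := mul_le_mul_of_nonneg_left hY2 (by positivity)
      _ = θ * (√N * √N) := by field_simp
      _ = θ * N := by rw [hsq]
  have hpow : N = N ^ (1 / 2 + δ) * N ^ (1 / 2 - δ) := by
    rw [← Real.rpow_add hN0]
    rw [show (1 / 2 + δ + (1 / 2 - δ) : ℝ) = 1 by ring, Real.rpow_one]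
  have hY5 : θ * N / Y ≤ N ^ (1 / 2 + δ) := by
    rw [div_le_iff₀ hY0]
    calc θ * N ≤ 1 * N := mul_le_mul_of_nonneg_right hθ1 hN0.le
      _ = N ^ (1 / 2 + δ) * N ^ (1 / 2 - δ) := by rw [one_mul]; exact hpow
      _ ≤ N ^ (1 / 2 + δ) * Y := mul_le_mul_of_nonneg_left hY1 (Real.rpow_nonneg hN0.le _)
  have hr1 : Y ≤ θ * N / Y := by
    calc Y ≤ √N := hY3
      _ = 1 * √N := (one_mul _).symm
      _ ≤ B₀ * √N := mul_le_mul_of_nonneg_right hB₀ hs0.le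
      _ ≤ _ := hY4
  have hr2 : ∀ η : ℝ, 4 * δ ≤ η → θ * N / Y ≤ N ^ η * Y := by
    intro η hη
    calc θ * N / Y ≤ N ^ (1 / 2 + δ) := hY5
      _ = N ^ (2 * δ) * N ^ (1 / 2 - δ) := by
          rw [← Real.rpow_add hN0]
          rw [show (2 * δ + (1 / 2 - δ) : ℝ) = 1 / 2 + δ by ring]
      _ ≤ N ^ η * Y := by
          apply mul_le_mul _ hY1 (Real.rpow_nonneg hN0.le _) (Real.rpow_nonneg hN0.le _)
          exact Real.rpow_le_rpow_of_exponent_le hN1 (by linarith)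
  have hr4 : ∀ η : ℝ, N ^ (-η) ≤ θ → N ^ (1 - η) ≤ Y * (θ * N / Y) := by
    intro η hη
    rw [hYY]
    calc N ^ (1 - η) = N ^ (-η) * N := by
          rw [show (1 - η : ℝ) = -η + 1 by ring, Real.rpow_add hN0, Real.rpow_one]
      _ ≤ θ * N := mul_le_mul_of_nonneg_right hη hN0.le
  have hr3 : Y * (θ * N / Y) ≤ N := by
    rw [hYY]
    calc θ * N ≤ 1 * N := mul_le_mul_of_nonneg_right hθ1 hN0.le
      _ = N := one_mul _
  refine ⟨hY0, by positivity, hYY, hY3, hY4, ?_, ⟨hr1, hr2 η₁ hη₁, hr3, hr4 η₁ hs₁⟩,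
    ⟨hr1, hr2 η₂ hη₂, hr3, hr4 η₂ hs₂⟩, ?_, by positivity, ?_⟩
  · exact hY5.trans (Real.rpow_le_rpow_of_exponent_le hN1 (by linarith))
  · rw [hYY]; exact mul_le_mul_of_nonneg_right hθρ hN0.le
  · rw [mul_assoc, hYY]
    apply le_of_eq
    field_simp

theorem SUE7 (hSUA7 : SUA7_stmt) (hSUB7 : SUB7_stmt) (hSUC7 : SUC7_stmt) : SUE7_stmt := by
  intro hTD1 η₁ μ hη₁ hAS
  obtain ⟨η₂, hη₂, hη₂1, hC⟩ := hSUC7 hTD1
  obtain ⟨C₁, hC₁, hA⟩ := hSUA7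
  obtain ⟨δ₁, hδ₁, hA⟩ := hA η₂ hη₂
  have hm1 : min δ₁ (min η₁ η₂) ≤ δ₁ := min_le_left _ _
  have hm2 : min δ₁ (min η₁ η₂) ≤ η₁ := (min_le_right _ _).trans (min_le_left _ _)
  have hm3 : min δ₁ (min η₁ η₂) ≤ η₂ := (min_le_right _ _).trans (min_le_right _ _)
  have hm0 : 0 < min δ₁ (min η₁ η₂) := lt_min hδ₁ (lt_min hη₁ hη₂)
  refine ⟨min δ₁ (min η₁ η₂) / 4, C₁, by linarith, hC₁, fun κ hκ hκ1 => ?_⟩
  obtain ⟨C₂, N₃, hC₂, h3⟩ := hC κ hκ hκ1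
  refine ⟨C₁ + C₂, by linarith, fun w hw ε hε => ?_⟩
  have hM : 1 ≤ MW w := SMW.1 w
  have hM0 : 0 < MW w := by linarith
  obtain ⟨ρ₀, N₁, hρ₀, h1⟩ := hAS κ hκ hκ1 w hw (ε / 4) (by positivity)
  obtain ⟨A, B₀, N₂, hA1, hB₀, h2⟩ := hA κ hκ hκ1 w hw (ε / 4) (by positivity)
  have hθ0 : 0 < min ρ₀ 1 := lt_min hρ₀ one_pos
  have hθρ : min ρ₀ 1 ≤ ρ₀ := min_le_left _ _
  have hθ1 : min ρ₀ 1 ≤ 1 := min_le_right _ _
  generalize min ρ₀ 1 = θ at hθ0 hθρ hθ1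
  obtain ⟨N₄, h4⟩ := SUE_small η₁ θ hη₁ hθ0
  obtain ⟨N₅, h5⟩ := SUE_small η₂ θ hη₂ hθ0
  have hB0 : 0 < B₀ := by linarith
  refine ⟨A / θ, θ / B₀, max (max (max N₁ N₂) (max N₃ N₄)) (max N₅ 10), ?_, by positivity,
    fun N Y hN hY1 hY2 => ?_⟩
  · rw [one_le_div hθ0]; linarith
  have hN1 : N₁ ≤ N := le_trans (le_trans (le_trans (le_max_left _ _) (le_max_left _ _)) (le_max_left _ _)) hN
  have hN2 : N₂ ≤ N := le_trans (le_trans (le_trans (le_max_right _ _) (le_max_left _ _)) (le_max_left _ _)) hN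
  have hN3 : N₃ ≤ N := le_trans (le_trans (le_trans (le_max_left _ _) (le_max_right _ _)) (le_max_left _ _)) hN
  have hN4 : N₄ ≤ N := le_trans (le_trans (le_trans (le_max_right _ _) (le_max_right _ _)) (le_max_left _ _)) hN
  have hN5 : N₅ ≤ N := le_trans (le_trans (le_max_left _ _) (le_max_right _ _)) hN
  have hN10 : 10 ≤ N := le_trans (le_trans (le_max_right _ _) (le_max_right _ _)) hN
  have hN0 : 0 < N := by linarith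
  have hs0 : 0 < √N := Real.sqrt_pos.2 hN0
  obtain ⟨hY0, hY₂0, hYY, hYs, hBY, hY₂s, hR1, hR2, hρN, hl0, hl⟩ :=
    SUE7_size (min δ₁ (min η₁ η₂) / 4) δ₁ η₁ η₂ ρ₀ θ A B₀ N Y (by linarith) (by linarith) (by linarith) (by linarith)
      hθ0 hθρ hθ1 hA1 hB₀ hN10 (h4 N hN4) (h5 N hN5) hY1 hY2
  generalize θ * N / Y = Y₂ at hY₂0 hYY hBY hY₂s hR1 hR2 hρN hl
  have hfin := SFC AIST κ N Y Y₂ hκ hN0 hY0 hY₂0
  have hFm : ∀ t, t ∈ hfin.toFinset ↔ Cen κ N Y Y₂ t := fun t => by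
    rw [Set.Finite.mem_toFinset]; rfl
  have k1 := h1 N Y Y₂ hN1 hY0 hR1 hρN hfin.toFinset hFm
  have k3 := h3 w hw N Y Y₂ hN3 hY0 hR2
  have kB := hSUB7 κ N Y Y₂ hκ hN10 hY0 hY₂0 w hfin.toFinset (fun t ht => (hFm t).2 ht)
  have kD := fun D hD => SUE7_D w κ N Y Y₂
    ((Real.pi - (C₁ * κ + MW w * (C₁ / w) + ε / 4)) * (Y₂ / √N)) (A / θ * Y) (N ^ η₂)
    (by
      intro K _ _ Q hfr g1 g2
      exact h2 K Q N Y Y₂ (A / θ * Y) hfr hN2 g1 g2 hYs hBY hY₂s hl0 hl) D hD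
  have kS := Finset.sum_le_sum kD
  rw [← Finset.mul_sum, Finset.sum_add_distrib, ← Finset.mul_sum, Finset.sum_comm (s := DN N)] at kS
  have hX0 : 0 ≤ Y * √N := by positivity
  have hw0 : (0 : ℝ) < w := by
    have : 0 < w := by omega
    exact_mod_cast this
  have hw1 : (1 : ℝ) ≤ w := by
    have : 1 ≤ w := by omega
    exact_mod_cast this
  have hBX : Y₂ / √N * (Y * √N) = Y * Y₂ := by field_simp
  refine SUE7_final Real.pi (∑ D ∈ DN N, ((cA D Y : ℝ) - (cE D Y (A / θ * Y) : ℝ)))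
    (∑ D ∈ DN N, SF (fun _ E => ∑ᶠ x ∈ GG7 E.Q κ N Y Y₂ 1, wt E.Q w x.1 x.2) D)
    (∑ g ∈ g7 w (N ^ η₂), ∑ D ∈ DN N, SF (fun _ E => ((GG7 E.Q κ N Y Y₂ g).ncard : ℝ)) D)
    (∑ t ∈ hfin.toFinset, fw w t)
    (Y₂ / √N) (Y * √N) (MW w) C₁ C₂ κ ε (MW w / (w : ℝ) ^ (1 / 8 : ℝ)) _ (1 / (w : ℝ)) (1 / (w : ℝ) ^ (1 / 8 : ℝ))
    (Finset.sum_nonneg (fun D _ => sub_nonneg.2 (SUE7_cE_le D Y _)))
    (by positivity) hX0 hM hC₁ hC₂ hε (by positivity) ?_ ?_ ?_ kB ?_ ?_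
  · apply one_div_le_one_div_of_le (Real.rpow_pos_of_pos hw0 _)
    calc (w : ℝ) ^ (1 / 8 : ℝ) ≤ (w : ℝ) ^ (1 : ℝ) := Real.rpow_le_rpow_of_exponent_le hw1 (by norm_num)
      _ = w := Real.rpow_one _
  · ring
  · rw [show C₁ * (1 / (w : ℝ)) = C₁ / w by ring]
    exact kS
  · rw [hBX]
    calc _ ≤ _ := k3
      _ = _ := by ring
  · rw [hBX]; exact k1

end Pool.Agent.T7
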